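import Pool.Agent.N983.RT.Stm

set_option autoImplicit false

/-! From boxes to vectors: if all partial sums of a family of complex numbers are at most `K` times the square
root of the number of terms, then the family has `ℓ²` norm at most `4 K √(1 + log n)`. -/

namespace Pool.Agent.U898.RT

open Pool.Agent.N983.RT Finset

lemma l1_of_sums {ι : Type*} (S : Finset ι) (c : ι → ℂ) (K : ℝ) (hK : 0 ≤ K)
    (h : ∀ A ⊆ S, ‖∑ k ∈ A, c k‖ ≤ K * Real.sqrt (A.card : ℝ)) :
    ∑ k ∈ S, ‖c k‖ ≤ 4 * K * Real.sqrt (S.card : ℝ) := by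
  classical
  have mono : ∀ A ⊆ S, ‖∑ k ∈ A, c k‖ ≤ K * Real.sqrt (S.card : ℝ) := by
    intro A hA
    refine (h A hA).trans ?_
    apply mul_le_mul_of_nonneg_left _ hK
    apply Real.sqrt_le_sqrt
    exact_mod_cast card_le_card hA
  have aux : ∀ f : ι → ℝ, (∀ A ⊆ S, |∑ k ∈ A, f k| ≤ K * Real.sqrt (S.card : ℝ)) →
      ∑ k ∈ S, |f k| ≤ 2 * K * Real.sqrt (S.card : ℝ) := by
    intro f hf
    have e : ∑ k ∈ S, |f k| = ∑ k ∈ S.filter (fun k => 0 ≤ f k), f k -
        ∑ k ∈ S.filter (fun k => ¬ 0 ≤ f k), f k := by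
      rw [← sum_filter_add_sum_filter_not S (fun k => 0 ≤ f k) (fun k => |f k|)]
      rw [sub_eq_add_neg, ← sum_neg_distrib]
      congr 1
      · apply sum_congr rfl
        intro k hk
        exact abs_of_nonneg (mem_filter.1 hk).2
      · apply sum_congr rfl
        intro k hk
        exact abs_of_neg (not_le.1 (mem_filter.1 hk).2)
    rw [e]
    have h1 := le_trans (le_abs_self _) (hf _ (filter_subset (fun k => 0 ≤ f k) S))
    have h2 := le_trans (neg_abs_le _) (le_refl (∑ k ∈ S.filter (fun k => ¬ 0 ≤ f k), f k))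
    have h3 := hf _ (filter_subset (fun k => ¬ 0 ≤ f k) S)
    linarith
  have hre := aux (fun k => (c k).re) (fun A hA => by
    have := mono A hA
    rw [← Complex.re_sum]
    exact (Complex.abs_re_le_norm _).trans this)
  have him := aux (fun k => (c k).im) (fun A hA => by
    have := mono A hA
    rw [← Complex.im_sum]
    exact (Complex.abs_im_le_norm _).trans this)
  calc ∑ k ∈ S, ‖c k‖ ≤ ∑ k ∈ S, (|(c k).re| + |(c k).im|) :=
        sum_le_sum fun k _ => Complex.norm_le_abs_re_add_abs_im _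
    _ = ∑ k ∈ S, |(c k).re| + ∑ k ∈ S, |(c k).im| := sum_add_distrib
    _ ≤ _ := by linarith

lemma l2_of_sums {ι : Type*} (c : ι → ℂ) (K : ℝ) (hK : 0 ≤ K) (n : ℕ) :
    ∀ S : Finset ι, S.card = n → (∀ A ⊆ S, ‖∑ k ∈ A, c k‖ ≤ K * Real.sqrt (A.card : ℝ)) →
    ∑ k ∈ S, ‖c k‖ ^ 2 ≤ 16 * K ^ 2 * (harmonic n : ℝ) := by
  classical
  induction n with
  | zero =>
    intro S hS _
    rw [card_eq_zero] at hS
    subst hS
    simp
  | succ n ih =>
    intro S hS h
    have hne : S.Nonempty := by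
      rw [← card_pos]
      omega
    obtain ⟨k₀, hk₀, hmin⟩ := S.exists_min_image (fun k => ‖c k‖) hne
    have h1 := l1_of_sums S c K hK h
    have h2 : (S.card : ℝ) * ‖c k₀‖ ≤ ∑ k ∈ S, ‖c k‖ := by
      rw [← nsmul_eq_mul]
      exact card_nsmul_le_sum S (fun k => ‖c k‖) ‖c k₀‖ hmin
    have hpos : (0 : ℝ) < S.card := by exact_mod_cast card_pos.2 hne
    have h3 : ‖c k₀‖ ^ 2 ≤ 16 * K ^ 2 * ((n : ℝ) + 1)⁻¹ := by
      have h4 : (S.card : ℝ) * ‖c k₀‖ ≤ 4 * K * Real.sqrt (S.card : ℝ) := h2.trans h1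
      have h5 : ((S.card : ℝ) * ‖c k₀‖) ^ 2 ≤ (4 * K * Real.sqrt (S.card : ℝ)) ^ 2 :=
        pow_le_pow_left₀ (by positivity) h4 2
      rw [mul_pow, mul_pow, Real.sq_sqrt hpos.le] at h5
      have h6 : (S.card : ℝ) = (n : ℝ) + 1 := by rw [hS]; push_cast; ring
      rw [h6] at h5 hpos
      rw [← div_eq_mul_inv, le_div_iff₀ hpos]
      have : ((n : ℝ) + 1) * (‖c k₀‖ ^ 2 * ((n : ℝ) + 1)) ≤ ((n : ℝ) + 1) * (16 * K ^ 2) := by
        nlinarith [h5]
      exact le_of_mul_le_mul_left this hpos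
    have h7 := ih (S.erase k₀) (by rw [card_erase_of_mem hk₀, hS]; rfl)
      (fun A hA => h A (hA.trans (erase_subset _ _)))
    rw [← add_sum_erase S (fun k => ‖c k‖ ^ 2) hk₀, harmonic_succ]
    push_cast
    rw [mul_add]
    have : 16 * K ^ 2 * ((n : ℝ) + 1)⁻¹ = 16 * K ^ 2 * ((n + 1 : ℝ))⁻¹ := rfl
    linarith

/-- the square root of the logarithm of the cardinality -/
noncomputable def lam {ι : Type*} (S : Finset ι) : ℝ := 4 * Real.sqrt (1 + Real.log (S.card : ℝ))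

lemma lam_nonneg {ι : Type*} (S : Finset ι) : 0 ≤ lam S := by unfold lam; positivity

lemma pair_le {ι : Type*} (S : Finset ι) (c : ι → ℂ) (K : ℝ) (hK : 0 ≤ K)
    (h : ∀ A ⊆ S, ‖∑ k ∈ A, c k‖ ≤ K * Real.sqrt (A.card : ℝ)) (x : ι → ℂ) :
    ‖∑ k ∈ S, x k * c k‖ ≤ lam S * K * Real.sqrt (∑ k ∈ S, ‖x k‖ ^ 2) := by
  have h1 := l2_of_sums c K hK S.card S rfl h
  have h2 : (harmonic S.card : ℝ) ≤ 1 + Real.log (S.card : ℝ) := harmonic_le_one_add_log _
  have h3 : ∑ k ∈ S, ‖c k‖ ^ 2 ≤ (4 * K) ^ 2 * (1 + Real.log (S.card : ℝ)) := by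
    refine h1.trans ?_
    rw [mul_pow]
    norm_num
    apply mul_le_mul_of_nonneg_left h2 (by positivity)
  have h4 : Real.sqrt (∑ k ∈ S, ‖c k‖ ^ 2) ≤ lam S * K := by
    refine (Real.sqrt_le_sqrt h3).trans ?_
    rw [Real.sqrt_mul (by positivity), Real.sqrt_sq (by positivity)]
    unfold lam
    apply le_of_eq
    ring
  calc ‖∑ k ∈ S, x k * c k‖ ≤ ∑ k ∈ S, ‖x k * c k‖ := norm_sum_le _ _
    _ = ∑ k ∈ S, ‖x k‖ * ‖c k‖ := sum_congr rfl fun k _ => norm_mul _ _
    _ ≤ Real.sqrt (∑ k ∈ S, ‖x k‖ ^ 2) * Real.sqrt (∑ k ∈ S, ‖c k‖ ^ 2) :=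
        Real.sum_mul_le_sqrt_mul_sqrt _ _ _
    _ ≤ Real.sqrt (∑ k ∈ S, ‖x k‖ ^ 2) * (lam S * K) :=
        mul_le_mul_of_nonneg_left h4 (Real.sqrt_nonneg _)
    _ = _ := by ring

/-- the coefficient with the indicator of `C` -/
noncomputable def ac (a : Wv → Wv → ℝ) (C : Finset Wv) (k l : Wv) : ℂ :=
  if -(k + l) ∈ C then (a k l : ℂ) else 0

lemma box_cast (a : Wv → Wv → ℝ) (A B C : Finset Wv) :
    ((Box a A B C : ℝ) : ℂ) = ∑ k ∈ A, ∑ l ∈ B, ac a C k l := by
  unfold Box ac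
  push_cast
  apply sum_congr rfl
  intro k _
  apply sum_congr rfl
  intro l _
  split_ifs <;> simp

theorem t_DIG : S_DIG := by
  refine ⟨4 ^ 3 * Real.sqrt 3 ^ 3, by positivity, ?_⟩
  intro R hR a L hL hsupp hbox x y z
  classical
  set S : Finset Wv := cub R with hS
  have hlam := lam_nonneg S
  -- step 1
  have s1 : ∀ B ⊆ S, ∀ C ⊆ S, ∀ x : Wv → ℂ, ‖∑ k ∈ S, x k * ∑ l ∈ B, ac a C k l‖ ≤
      lam S * (L * Real.sqrt ((B.card : ℝ) * C.card)) * Real.sqrt (∑ k ∈ S, ‖x k‖ ^ 2) := by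
    intro B hB C hC x
    apply pair_le S _ _ (by positivity)
    intro A hA
    rw [← box_cast, Complex.norm_real, Real.norm_eq_abs]
    rcases A.eq_empty_or_nonempty with h | hAn
    · subst h; simp [Box]
    rcases B.eq_empty_or_nonempty with h | hBn
    · subst h; simp [Box]
    rcases C.eq_empty_or_nonempty with h | hCn
    · subst h; simp [Box]
    refine (hbox A hA B hB C hC hAn hBn hCn).trans (le_of_eq ?_)
    rw [mul_assoc (A.card : ℝ), Real.sqrt_mul (by positivity)]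
    ring
  -- step 2
  have s2 : ∀ C ⊆ S, ∀ x y : Wv → ℂ, ‖∑ l ∈ S, y l * ∑ k ∈ S, x k * ac a C k l‖ ≤
      lam S * (lam S * L * Real.sqrt (C.card : ℝ) * Real.sqrt (∑ k ∈ S, ‖x k‖ ^ 2)) *
        Real.sqrt (∑ k ∈ S, ‖y k‖ ^ 2) := by
    intro C hC x y
    apply pair_le S _ _ (by positivity)
    intro B hB
    have e : ∑ l ∈ B, ∑ k ∈ S, x k * ac a C k l = ∑ k ∈ S, x k * ∑ l ∈ B, ac a C k l := by
      rw [sum_comm]
      apply sum_congr rfl
      intro k _
      rw [mul_sum]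
    rw [e]
    refine (s1 B hB C hC x).trans (le_of_eq ?_)
    rw [Real.sqrt_mul (by positivity)]
    ring
  -- step 3
  have s3 : ‖∑ m ∈ S, z m * ∑ k ∈ S, ∑ l ∈ S, (if -(k + l) = m then (a k l : ℂ) * x k * y l else 0)‖ ≤
      lam S * (lam S * (lam S * L * Real.sqrt (∑ k ∈ S, ‖x k‖ ^ 2)) *
        Real.sqrt (∑ k ∈ S, ‖y k‖ ^ 2)) * Real.sqrt (∑ k ∈ S, ‖z k‖ ^ 2) := by
    apply pair_le S _ _ (by positivity)
    intro C hC
    have e : ∑ m ∈ C, ∑ k ∈ S, ∑ l ∈ S, (if -(k + l) = m then (a k l : ℂ) * x k * y l else 0) =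
        ∑ l ∈ S, y l * ∑ k ∈ S, x k * ac a C k l := by
      rw [sum_comm]
      have e1 : ∀ l ∈ S, y l * ∑ k ∈ S, x k * ac a C k l = ∑ k ∈ S, y l * (x k * ac a C k l) := by
        intro l _
        rw [mul_sum]
      rw [sum_congr rfl e1, sum_comm (s := S) (t := S)]
      apply sum_congr rfl
      intro k _
      rw [sum_comm]
      apply sum_congr rfl
      intro l _
      rw [sum_ite_eq]
      unfold ac
      split_ifs
      · ring
      · ring
    rw [e]
    refine (s2 C hC x y).trans (le_of_eq ?_)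
    ring
  have e3 : Tri a R x y z = ∑ m ∈ S, z m * ∑ k ∈ S, ∑ l ∈ S,
      (if -(k + l) = m then (a k l : ℂ) * x k * y l else 0) := by
    have e1 : ∀ m ∈ S, z m * ∑ k ∈ S, ∑ l ∈ S, (if -(k + l) = m then (a k l : ℂ) * x k * y l else 0) =
        ∑ k ∈ S, ∑ l ∈ S, (if -(k + l) = m then (a k l : ℂ) * x k * y l * z m else 0) := by
      intro m _
      rw [mul_sum]
      apply sum_congr rfl
      intro k _
      rw [mul_sum]
      apply sum_congr rfl
      intro l _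
      split_ifs
      · ring
      · ring
    rw [sum_congr rfl e1, sum_comm]
    unfold Tri
    apply sum_congr rfl
    intro k _
    rw [sum_comm]
    apply sum_congr rfl
    intro l _
    rw [sum_ite_eq]
    split_ifs with h
    · rfl
    · have : a k l = 0 := by
        by_contra h'
        exact h (hsupp k l h')
      rw [this]
      simp
  rw [e3]
  refine s3.trans ?_
  -- the constant
  have hcard : (S.card : ℝ) = (2 * (R : ℝ) + 1) ^ 3 := by
    have : S.card = (2 * R + 1) ^ 3 := by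
      rw [hS]
      unfold cub
      rw [Fintype.card_piFinset]
      simp only [Int.card_Icc, prod_const, card_univ, Fintype.card_fin]
      congr 1
      omega
    rw [this]
    push_cast
    ring
  have hlog : 0 ≤ Real.log (2 * (R : ℝ) + 1) := by
    apply Real.log_nonneg
    have : (0 : ℝ) ≤ R := Nat.cast_nonneg R
    linarith
  have hlam2 : lam S ≤ 4 * Real.sqrt 3 * (1 + Real.log (2 * (R : ℝ) + 1)) := by
    unfold lam
    rw [mul_assoc]
    apply mul_le_mul_of_nonneg_left _ (by norm_num)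
    rw [hcard, Real.log_pow]
    apply Real.sqrt_le_iff.2
    constructor
    · positivity
    · rw [mul_pow, Real.sq_sqrt (by norm_num)]
      push_cast
      nlinarith [hlog]
  have hlam3 : lam S ^ 3 ≤ (4 * Real.sqrt 3 * (1 + Real.log (2 * (R : ℝ) + 1))) ^ 3 :=
    pow_le_pow_left₀ hlam hlam2 3
  have hN : 0 ≤ L * (N2 R x * N2 R y * N2 R z) := by
    unfold N2
    positivity
  calc _ = lam S ^ 3 * (L * (N2 R x * N2 R y * N2 R z)) := by
        unfold N2
        ring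
    _ ≤ (4 * Real.sqrt 3 * (1 + Real.log (2 * (R : ℝ) + 1))) ^ 3 * (L * (N2 R x * N2 R y * N2 R z)) :=
        mul_le_mul_of_nonneg_right hlam3 hN
    _ = _ := by ring

end Pool.Agent.U898.RT
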